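import Pool.Agent.H43.DPC.Targets

/-!
# KER: the form with the kernel `|x - y| ^ (-2a)`
-/

open MeasureTheory SchwartzMap Filter Topology Set Metric
open scoped ENNReal ContDiff

namespace Pool.Agent.H77.DPC

open Pool.Agent.H43.DPC

noncomputable section

/-- the kernel -/
def KER_k (a : ℝ) {d : ℕ} (z : V d) : ℝ := ‖z‖ ^ (-(2 * a))

/-- the singular part of the kernel -/
def KER_k1 (a : ℝ) {d : ℕ} (z : V d) : ℝ := (ball (0 : V d) 1).indicator (KER_k a) z

/-- the integrand -/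
def KER_F (a : ℝ) {d : ℕ} (f g : S d) (z : V d × V d) : ℝ :=
  ‖z.1 - z.2‖ ^ (-(2 * a)) * (f z.1 * g z.2)

theorem KER_k_nonneg (a : ℝ) {d : ℕ} (z : V d) : 0 ≤ KER_k a z := Real.rpow_nonneg (norm_nonneg _) _

theorem KER_k1_nonneg (a : ℝ) {d : ℕ} (z : V d) : 0 ≤ KER_k1 a z :=
  Set.indicator_nonneg (fun z _ => KER_k_nonneg a z) z

theorem KER_k_le {a : ℝ} (ha : 0 < a) {d : ℕ} (z : V d) : KER_k a z ≤ KER_k1 a z + 1 := by
  by_cases hz : z ∈ ball (0 : V d) 1
  · unfold KER_k1
    rw [Set.indicator_of_mem hz]; linarith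
  · unfold KER_k1
    rw [Set.indicator_of_notMem hz, zero_add]
    unfold KER_k
    have h1 : 1 ≤ ‖z‖ := by
      rw [mem_ball_zero_iff] at hz; exact not_lt.1 hz
    exact Real.rpow_le_one_of_one_le_of_nonpos h1 (by linarith)

theorem KER_int {a : ℝ} {d : ℕ} (hd : 1 ≤ d) (h2 : 2 * a < d) :
    Integrable (KER_k1 a : V d → ℝ) := by
  have : Nonempty (Fin d) := ⟨⟨0, hd⟩⟩
  unfold KER_k1
  rw [show (fun z : V d => (ball (0 : V d) 1).indicator (KER_k a) z) =
    (ball (0 : V d) 1).indicator (KER_k a) from rfl, integrable_indicator_iff measurableSet_ball]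
  have h := (integrableOn_fun_norm_addHaar (volume : Measure (V d))
    (f := fun r : ℝ => r ^ (-(2 * a))) (r := 1)).2 ?_
  · exact h
  · rw [finrank_euclideanSpace_fin]
    have h1 : IntegrableOn (fun x : ℝ => x ^ ((d : ℝ) - 1 - 2 * a)) (Ioo (0 : ℝ) 1) :=
      (intervalIntegral.integrableOn_Ioo_rpow_iff one_pos).2 (by linarith)
    refine h1.congr_fun ?_ measurableSet_Ioo
    intro y hy
    simp only [smul_eq_mul]
    rw [← Real.rpow_natCast, ← Real.rpow_add hy.1, Nat.cast_sub hd]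
    congr 1
    push_cast
    ring

theorem KER_meas (a : ℝ) {d : ℕ} (f g : S d) : Measurable (KER_F a f g) := by
  unfold KER_F
  apply Measurable.mul
  · exact (measurable_norm.comp (measurable_fst.sub measurable_snd)).pow_const _
  · exact (f.continuous.measurable.comp measurable_fst).mul
      (g.continuous.measurable.comp measurable_snd)

/-- the constant of the one variable integral -/
def KER_J (a : ℝ) {d : ℕ} (g : S d) : ℝ :=
  (∫ z : V d, KER_k1 a z) * SchwartzMap.seminorm ℝ 0 0 g + ∫ y, ‖g y‖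

theorem KER_bd {a : ℝ} (ha : 0 < a) {d : ℕ} (f g : S d) (x y : V d) :
    ‖KER_F a f g (x, y)‖ ≤ ‖f x‖ * (KER_k1 a (x - y) * SchwartzMap.seminorm ℝ 0 0 g + ‖g y‖) := by
  unfold KER_F
  simp only
  have h0 : ‖‖x - y‖ ^ (-(2 * a))‖ = ‖x - y‖ ^ (-(2 * a)) :=
    Real.norm_of_nonneg (Real.rpow_nonneg (norm_nonneg _) _)
  rw [norm_mul, norm_mul, h0]
  have h1 : KER_k a (x - y) * ‖g y‖ ≤ KER_k1 a (x - y) * SchwartzMap.seminorm ℝ 0 0 g + ‖g y‖ := by
    have h2 := mul_le_mul_of_nonneg_right (KER_k_le ha (x - y)) (norm_nonneg (g y))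
    have h3 := mul_le_mul_of_nonneg_left (norm_le_seminorm ℝ g y) (KER_k1_nonneg a (x - y))
    calc _ ≤ _ := h2
      _ = KER_k1 a (x - y) * ‖g y‖ + ‖g y‖ := by ring
      _ ≤ _ := by linarith
  calc ‖x - y‖ ^ (-(2 * a)) * (‖f x‖ * ‖g y‖) = ‖f x‖ * (KER_k a (x - y) * ‖g y‖) := by
        unfold KER_k; ring
    _ ≤ _ := mul_le_mul_of_nonneg_left h1 (norm_nonneg _)

theorem KER_int1 {a : ℝ} {d : ℕ} (hd : 1 ≤ d) (h2 : 2 * a < d) (f g : S d) (x : V d) :
    Integrable (fun y => ‖f x‖ * (KER_k1 a (x - y) * SchwartzMap.seminorm ℝ 0 0 g + ‖g y‖)) := by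
  apply Integrable.const_mul
  apply Integrable.add
  · exact ((KER_int hd h2).comp_sub_left x).mul_const _
  · exact g.integrable.norm

theorem KER_int2 {a : ℝ} {d : ℕ} (hd : 1 ≤ d) (h2 : 2 * a < d) (f g : S d) (x : V d) :
    ∫ y, ‖f x‖ * (KER_k1 a (x - y) * SchwartzMap.seminorm ℝ 0 0 g + ‖g y‖) =
      ‖f x‖ * KER_J a g := by
  rw [integral_const_mul]
  congr 1
  rw [integral_add (((KER_int hd h2).comp_sub_left x).mul_const _) g.integrable.norm,
    integral_mul_const]
  unfold KER_J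
  rw [integral_sub_left_eq_self (fun z : V d => KER_k1 a z) volume x]

theorem KER_intF {a : ℝ} (ha : 0 < a) {d : ℕ} (hd : 1 ≤ d) (h2 : 2 * a < d) (f g : S d) :
    Integrable (KER_F a f g) ∧ ∫ z, ‖KER_F a f g z‖ ≤ (∫ x, ‖f x‖) * KER_J a g := by
  have hm : AEStronglyMeasurable (KER_F a f g) (volume : Measure (V d × V d)) :=
    (KER_meas a f g).aestronglyMeasurable
  have h1 : ∀ x, Integrable (fun y => KER_F a f g (x, y)) := by
    intro x
    refine (KER_int1 hd h2 f g x).mono' ?_ (Eventually.of_forall fun y => KER_bd ha f g x y)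
    exact ((KER_meas a f g).comp measurable_prodMk_left).aestronglyMeasurable
  have h3 : ∀ x, ∫ y, ‖KER_F a f g (x, y)‖ ≤ ‖f x‖ * KER_J a g := by
    intro x
    rw [← KER_int2 hd h2 f g x]
    exact integral_mono (h1 x).norm (KER_int1 hd h2 f g x) (fun y => KER_bd ha f g x y)
  have h4 : Integrable (fun x => ‖f x‖ * KER_J a g) := f.integrable.norm.mul_const _
  have h5 : Integrable (fun x => ∫ y, ‖KER_F a f g (x, y)‖) := by
    refine h4.mono' ?_ (Eventually.of_forall fun x => ?_)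
    · exact hm.norm.integral_prod_right'
    · rw [Real.norm_of_nonneg (integral_nonneg fun _ => norm_nonneg _)]
      exact h3 x
  have hI : Integrable (KER_F a f g) := (integrable_prod_iff hm).2 ⟨Eventually.of_forall h1, h5⟩
  refine ⟨hI, ?_⟩
  have e : ∫ z, ‖KER_F a f g z‖ = ∫ x, ∫ y, ‖KER_F a f g (x, y)‖ := by
    exact integral_prod (fun z => ‖KER_F a f g z‖) hI.norm
  rw [e, ← integral_mul_const]
  exact integral_mono h5 h4 h3

/-- seminorms -/
theorem KER_semi {d : ℕ} (m k l : ℕ) (hk : k ≤ m) (hl : l ≤ m) (f : S d) :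
    SchwartzMap.seminorm ℝ k l f ≤ pm m f := by
  unfold pm
  have hi : (k, l) ∈ Finset.Iic (m, m) := by
    rw [Finset.mem_Iic]; exact ⟨hk, hl⟩
  exact Seminorm.le_finset_sup_apply (p := schwartzSeminormFamily ℝ (V d) ℝ) (x := f) hi

theorem KER_L1 (d : ℕ) : ∃ (C : ℝ) (m : ℕ), 0 ≤ C ∧ ∀ f : S d, ∫ x, ‖f x‖ ≤ C * pm m f := by
  set μ : Measure (V d) := volume
  refine ⟨2 * (2 ^ μ.integrablePower * (∫ x, (1 + ‖x‖) ^ (-(μ.integrablePower : ℝ)) ∂μ)),
    μ.integrablePower, ?_, ?_⟩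
  · have : 0 ≤ ∫ x, (1 + ‖x‖) ^ (-(μ.integrablePower : ℝ)) ∂μ :=
      integral_nonneg fun x => Real.rpow_nonneg (by positivity) _
    positivity
  · intro f
    have h := SchwartzMap.integral_pow_mul_iteratedFDeriv_le ℝ μ f 0 0
    have e : ∫ x, ‖x‖ ^ 0 * ‖iteratedFDeriv ℝ 0 f x‖ ∂μ = ∫ x, ‖f x‖ ∂μ := by
      apply integral_congr_ae
      exact Eventually.of_forall fun x => by simp
    rw [e] at h
    have hc : 0 ≤ 2 ^ μ.integrablePower * ∫ x, (1 + ‖x‖) ^ (-(μ.integrablePower : ℝ)) ∂μ := by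
      have : 0 ≤ ∫ x, (1 + ‖x‖) ^ (-(μ.integrablePower : ℝ)) ∂μ :=
        integral_nonneg fun x => Real.rpow_nonneg (by positivity) _
      positivity
    have h1 := KER_semi μ.integrablePower 0 0 (Nat.zero_le _) (Nat.zero_le _) f
    have h2 := KER_semi μ.integrablePower (0 + μ.integrablePower) 0 (by omega) (Nat.zero_le _) f
    calc ∫ x, ‖f x‖ ∂μ ≤ _ := h
      _ ≤ (2 ^ μ.integrablePower * ∫ x, (1 + ‖x‖) ^ (-(μ.integrablePower : ℝ)) ∂μ) *
          (pm μ.integrablePower f + pm μ.integrablePower f) :=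
          mul_le_mul_of_nonneg_left (add_le_add h1 h2) hc
      _ = _ := by ring

/-- the form -/
def KER_B (a : ℝ) {d : ℕ} (hI : ∀ f g : S d, Integrable (KER_F a f g)) :
    S d →ₗ[ℝ] S d →ₗ[ℝ] ℝ :=
  LinearMap.mk₂ ℝ (fun f g => ∫ z, KER_F a f g z)
    (fun f f' g => by
      rw [← integral_add (hI f g) (hI f' g)]
      congr 1
      funext z
      simp only [KER_F, add_apply]; ring)
    (fun c f g => by
      rw [smul_eq_mul, ← integral_const_mul]
      congr 1
      funext z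
      simp only [KER_F, smul_apply, smul_eq_mul]; ring)
    (fun f g g' => by
      rw [← integral_add (hI f g) (hI f g')]
      congr 1
      funext z
      simp only [KER_F, add_apply]; ring)
    (fun c f g => by
      rw [smul_eq_mul, ← integral_const_mul]
      congr 1
      funext z
      simp only [KER_F, smul_apply, smul_eq_mul]; ring)

theorem KER_trans (a : ℝ) {d : ℕ} (h : V d) (f g : S d) :
    ∫ z, KER_F a (trans h f) (trans h g) z = ∫ z, KER_F a f g z := by
  have hri : (volume : Measure (V d × V d)).IsAddRightInvariant :=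
    inferInstanceAs ((volume.prod volume : Measure (V d × V d)).IsAddRightInvariant)
  rw [← integral_sub_right_eq_self (fun z : V d × V d => KER_F a f g z) (h, h)]
  congr 1
  funext z
  unfold KER_F
  have e1 : ∀ (u : S d) (x : V d), trans h u x = u (x - h) := fun u x => rfl
  rw [e1, e1]
  simp only [Prod.fst_sub, Prod.snd_sub, sub_sub_sub_cancel_right]

theorem KER_rot (a : ℝ) {d : ℕ} (R : V d ≃ₗᵢ[ℝ] V d) (f g : S d) :
    ∫ z, KER_F a (rot R f) (rot R g) z = ∫ z, KER_F a f g z := by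
  have hmp : MeasurePreserving (Prod.map R R) (volume : Measure (V d × V d)) volume :=
    R.measurePreserving.prod R.measurePreserving
  have hme : MeasurableEmbedding (Prod.map R R : V d × V d → V d × V d) := by
    have := R.toHomeomorph.measurableEmbedding
    exact this.prodMap this
  rw [← hmp.integral_comp hme (KER_F a f g)]
  congr 1
  funext z
  unfold KER_F
  have e1 : ∀ (u : S d) (x : V d), rot R u x = u (R x) := fun u x => rfl
  rw [e1, e1]
  simp only [Prod.map_fst, Prod.map_snd]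
  rw [← map_sub, R.norm_map]

theorem KER_dil (a : ℝ) {d : ℕ} (t : ℝˣ) (ht : 0 < (t : ℝ)) (f g : S d) :
    ∫ z, KER_F a (dil t f) (dil t g) z =
      ((t : ℝ) ^ ((d : ℝ) - a)) ^ 2 * ∫ z, KER_F a f g z := by
  have e1 : ∀ (u : S d) (x : V d), dil t u x = u ((t : ℝ)⁻¹ • x) := by
    intro u x
    have : dil t u x = u (t⁻¹ • x) := rfl
    rw [this]
    congr 1
    rw [Units.smul_def, Units.val_inv_eq_inv_val]
  have h1 : ∀ z : V d × V d, KER_F a (dil t f) (dil t g) z =
      (fun w : V d × V d => (t : ℝ) ^ (-(2 * a)) * KER_F a f g w) ((t : ℝ)⁻¹ • z) := by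
    intro z
    simp only [KER_F, e1, Prod.smul_fst, Prod.smul_snd]
    rw [← smul_sub, norm_smul, norm_inv, Real.norm_of_nonneg ht.le]
    rw [Real.mul_rpow (inv_nonneg.2 ht.le) (norm_nonneg _), Real.inv_rpow ht.le]
    have : (t : ℝ) ^ (-(2 * a)) ≠ 0 := (Real.rpow_pos_of_pos ht _).ne'
    field_simp
  have hah : (volume : Measure (V d × V d)).IsAddHaarMeasure :=
    inferInstanceAs ((volume.prod volume : Measure (V d × V d)).IsAddHaarMeasure)
  rw [show (fun z => KER_F a (dil t f) (dil t g) z) = fun z : V d × V d =>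
      (fun w : V d × V d => (t : ℝ) ^ (-(2 * a)) * KER_F a f g w) ((t : ℝ)⁻¹ • z) from funext h1]
  rw [Measure.integral_comp_smul volume
    (fun w : V d × V d => (t : ℝ) ^ (-(2 * a)) * KER_F a f g w) (t : ℝ)⁻¹, integral_const_mul,
    smul_eq_mul, ← mul_assoc]
  congr 1
  have hfr : Module.finrank ℝ (V d × V d) = 2 * d := by
    rw [Module.finrank_prod, finrank_euclideanSpace_fin]; ring
  rw [hfr, inv_pow, inv_inv, abs_of_pos (by positivity), ← Real.rpow_natCast,
    ← Real.rpow_add ht, ← Real.rpow_natCast (_ ^ _), ← Real.rpow_mul ht.le]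
  congr 1
  push_cast
  ring

theorem KER_pos (a : ℝ) {d : ℕ} (hd : 1 ≤ d) (g : S d) (hg : ∀ x, g x = gau d 1 x)
    (hI : Integrable (KER_F a g g)) : 0 < ∫ z, KER_F a g g z := by
  have : Nonempty (Fin d) := ⟨⟨0, hd⟩⟩
  have hgp : ∀ x, 0 < g x := by
    intro x; rw [hg]; unfold gau
    apply mul_pos _ (Real.exp_pos _)
    apply Real.rpow_pos_of_pos
    positivity
  have hnn : 0 ≤ KER_F a g g := by
    intro z
    unfold KER_F
    exact mul_nonneg (Real.rpow_nonneg (norm_nonneg _) _) (mul_pos (hgp _) (hgp _)).le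
  rw [integral_pos_iff_support_of_nonneg hnn hI]
  have hopen : IsOpen {z : V d × V d | z.1 ≠ z.2} := isOpen_ne_fun continuous_fst continuous_snd
  have hne : {z : V d × V d | z.1 ≠ z.2}.Nonempty := by
    obtain ⟨x, y, hxy⟩ := exists_pair_ne (V d)
    exact ⟨(x, y), hxy⟩
  refine lt_of_lt_of_le (hopen.measure_pos volume hne) (measure_mono ?_)
  intro z hz
  rw [Function.mem_support]
  unfold KER_F
  apply mul_ne_zero
  · exact (Real.rpow_pos_of_pos (norm_pos_iff.2 (sub_ne_zero.2 hz)) _).ne'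
  · exact (mul_pos (hgp _) (hgp _)).ne'

theorem KER : T_KER := by
  intro d hd a ha h2
  have hI : ∀ f g : S d, Integrable (KER_F a f g) := fun f g => (KER_intF ha hd h2 f g).1
  refine ⟨KER_B a hI, ⟨?_, ?_, ?_, ?_⟩, fun f g => hI f g, fun f g => rfl, ?_⟩
  · obtain ⟨C, m, hC, hL⟩ := KER_L1 d
    set K1 : ℝ := ∫ z : V d, KER_k1 a z with hK1
    have hK0 : 0 ≤ K1 := integral_nonneg fun z => KER_k1_nonneg a z
    refine ⟨C * (K1 + C), m, by positivity, ?_⟩
    intro f g
    have e : KER_B a hI f g = ∫ z, KER_F a f g z := rfl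
    rw [e]
    have hf0 : 0 ≤ ∫ x, ‖f x‖ := integral_nonneg fun _ => norm_nonneg _
    have hJ : KER_J a g ≤ (K1 + C) * pm m g := by
      unfold KER_J
      have h1 := KER_semi m 0 0 (Nat.zero_le _) (Nat.zero_le _) g
      have h3 := mul_le_mul_of_nonneg_left h1 hK0
      have h4 := hL g
      calc _ ≤ K1 * pm m g + C * pm m g := add_le_add h3 h4
        _ = _ := by ring
    have hJ0 : 0 ≤ (K1 + C) * pm m g := by
      have : 0 ≤ pm m g := apply_nonneg _ _
      positivity
    calc |∫ z, KER_F a f g z| ≤ ∫ z, ‖KER_F a f g z‖ := by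
          rw [← Real.norm_eq_abs]; exact norm_integral_le_integral_norm _
      _ ≤ (∫ x, ‖f x‖) * KER_J a g := (KER_intF ha hd h2 f g).2
      _ ≤ (∫ x, ‖f x‖) * ((K1 + C) * pm m g) := mul_le_mul_of_nonneg_left hJ hf0
      _ ≤ (C * pm m f) * ((K1 + C) * pm m g) := mul_le_mul_of_nonneg_right (hL f) hJ0
      _ = _ := by ring
  · intro h f g
    exact KER_trans a h f g
  · intro R f g
    exact KER_rot a R f g
  · intro t f g ht
    exact KER_dil a t ht f g
  · intro g hg
    exact KER_pos a hd g hg (hI g g)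

end

end Pool.Agent.H77.DPC
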